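import Mathlib

/-!
# Ideals of Lie algebras with semisimple quotients: comparison of ranks
-/

set_option autoImplicit false

open Module Polynomial

namespace Pool.Agent.TH164.Gou

section ideal

variable {k : Type*} [Field k]
variable {h : Type*} [LieRing h] [LieAlgebra k h]

/-- The rank of `P (ad x)` on `g`; the element `x` of `h` acts through the homomorphism `ρ` from
`h` to `g`. -/
noncomputable def rk {g : Type*} [LieRing g] [LieAlgebra k g] (ρ : h →ₗ⁅k⁆ g) (x : h)
    (P : k[X]) : ℕ :=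
  finrank k (LinearMap.range (aeval (LieAlgebra.ad k g (ρ x)) P))

/-- A Lie homomorphism `p` from `h` to a simple Lie algebra `S` and another one `ρ` from `h` to `g`
are told apart by an element `x` of `h` and a polynomial `P`: the rank of `P (ad x)` on `S` is
larger than its rank on `g`; or `g` is simple, `ρ` is surjective, and the rank on `g` is larger. -/
def Differ {g S : Type*} [LieRing g] [LieAlgebra k g] [LieRing S] [LieAlgebra k S]
    (p : h →ₗ⁅k⁆ S) (ρ : h →ₗ⁅k⁆ g) : Prop :=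
  ∃ (x : h) (P : k[X]), rk ρ x P < rk p x P ∨
    (LieAlgebra.IsSimple k g ∧ Function.Surjective ρ ∧ rk p x P < rk ρ x P)

/-- A linear map which vanishes on the kernel of another one factors through it. -/
theorem factor {A B C : Type*} [AddCommGroup A] [Module k A] [AddCommGroup B] [Module k B]
    [AddCommGroup C] [Module k C] (p : A →ₗ[k] C) (ρ : A →ₗ[k] B)
    (hk : LinearMap.ker ρ ≤ LinearMap.ker p) : ∃ q : B →ₗ[k] C, q ∘ₗ ρ = p := by
  obtain ⟨s, hs⟩ := LinearMap.exists_rightInverse_of_surjective ρ.rangeRestrict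
    (LinearMap.range_rangeRestrict ρ)
  obtain ⟨q, hq⟩ := LinearMap.exists_extend (p ∘ₗ s)
  refine ⟨q, ?_⟩
  ext a
  have h1 : q (ρ a) = p (s ⟨ρ a, LinearMap.mem_range_self ρ a⟩) :=
    LinearMap.congr_fun hq ⟨ρ a, LinearMap.mem_range_self ρ a⟩
  rw [LinearMap.comp_apply, h1, ← sub_eq_zero, ← map_sub]
  apply hk
  rw [LinearMap.mem_ker, map_sub, sub_eq_zero]
  have h2 := LinearMap.congr_fun hs ⟨ρ a, LinearMap.mem_range_self ρ a⟩
  exact congrArg Subtype.val h2

/-- Polynomials in the adjoint action of an element are compatible with homomorphisms. -/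
theorem aeval_ad {g : Type*} [LieRing g] [LieAlgebra k g] (p : h →ₗ⁅k⁆ g) (x : h) (P : k[X]) :
    (p : h →ₗ[k] g) ∘ₗ aeval (LieAlgebra.ad k h x) P =
      aeval (LieAlgebra.ad k g (p x)) P ∘ₗ (p : h →ₗ[k] g) := by
  have h1 : ∀ y, p (LieAlgebra.ad k h x y) = LieAlgebra.ad k g (p x) (p y) := by
    intro y
    rw [LieAlgebra.ad_apply, LieAlgebra.ad_apply, LieHom.map_lie]
  have h2 : ∀ n : ℕ, (p : h →ₗ[k] g) ∘ₗ ((LieAlgebra.ad k h x) ^ n) =
      ((LieAlgebra.ad k g (p x)) ^ n) ∘ₗ (p : h →ₗ[k] g) := by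
    intro n
    induction n with
    | zero => rfl
    | succ n ih =>
      refine LinearMap.ext fun y => ?_
      rw [LinearMap.comp_apply, LinearMap.comp_apply, pow_succ, pow_succ, Module.End.mul_apply,
        Module.End.mul_apply]
      have h3 := LinearMap.congr_fun ih (LieAlgebra.ad k h x y)
      rw [LinearMap.comp_apply, LinearMap.comp_apply] at h3
      rw [h3]
      congr 1
      exact h1 y
  induction P using Polynomial.induction_on' with
  | add P Q hP hQ => rw [map_add, map_add, LinearMap.comp_add, LinearMap.add_comp, hP, hQ]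
  | monomial n a =>
    rw [aeval_monomial, aeval_monomial, Module.algebraMap_end_eq_smul_id,
      Module.algebraMap_end_eq_smul_id, Module.End.mul_eq_comp, Module.End.mul_eq_comp,
      LinearMap.smul_comp, LinearMap.smul_comp, LinearMap.comp_smul, LinearMap.smul_comp]
    congr 1
    exact h2 n

/-- **Comparison of ranks.** -/
theorem rank_le {g S : Type*} [LieRing g] [LieAlgebra k g] [FiniteDimensional k g] [LieRing S]
    [LieAlgebra k S] (p : h →ₗ⁅k⁆ S) (ρ : h →ₗ⁅k⁆ g) (hp : Function.Surjective p)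
    (hk : ∀ y, ρ y = 0 → p y = 0) (x : h) (P : k[X]) : rk p x P ≤ rk ρ x P := by
  obtain ⟨q, hq⟩ := factor (p : h →ₗ[k] S) (ρ : h →ₗ[k] g) (by
    intro y hy
    exact hk y hy)
  obtain ⟨U, hU⟩ : ∃ U, U = LinearMap.range (aeval (LieAlgebra.ad k h x) P) := ⟨_, rfl⟩
  have h1 : LinearMap.range (aeval (LieAlgebra.ad k S (p x)) P) = U.map (p : h →ₗ[k] S) := by
    have hs : LinearMap.range (p : h →ₗ[k] S) = ⊤ := LinearMap.range_eq_top.2 hp
    rw [hU, ← LinearMap.range_comp, aeval_ad, LinearMap.range_comp, hs, Submodule.map_top]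
  have h2 : U.map (ρ : h →ₗ[k] g) ≤ LinearMap.range (aeval (LieAlgebra.ad k g (ρ x)) P) := by
    rw [hU, ← LinearMap.range_comp, aeval_ad, LinearMap.range_comp]
    exact LinearMap.map_le_range
  have h3 : U.map (p : h →ₗ[k] S) = (U.map (ρ : h →ₗ[k] g)).map q := by
    rw [← Submodule.map_comp, hq]
  unfold rk
  rw [h1, h3]
  exact (Submodule.finrank_map_le _ _).trans (Submodule.finrank_mono h2)

theorem brk_top (S : Type*) [LieRing S] [LieAlgebra k S] [hS : LieAlgebra.IsSimple k S] :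
    ⁅(⊤ : LieIdeal k S), (⊤ : LieIdeal k S)⁆ = ⊤ := by
  rcases hS.eq_bot_or_eq_top ⁅(⊤ : LieIdeal k S), (⊤ : LieIdeal k S)⁆ with h1 | h1
  · exfalso
    apply hS.non_abelian
    rw [LieSubmodule.lie_eq_bot_iff] at h1
    exact ⟨fun x y => h1 x (LieSubmodule.mem_top x) y (LieSubmodule.mem_top y)⟩
  · exact h1

/-- The kernel of `ρ` maps onto the simple Lie algebra `S`. -/
theorem map_ker {g S : Type*} [LieRing g] [LieAlgebra k g] [FiniteDimensional k g] [LieRing S]
    [LieAlgebra k S] [hS : LieAlgebra.IsSimple k S] [FiniteDimensional k S] (p : h →ₗ⁅k⁆ S)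
    (ρ : h →ₗ⁅k⁆ g) (hp : Function.Surjective p) (hd : Differ p ρ) :
    LieIdeal.map p ρ.ker = ⊤ := by
  rcases hS.eq_bot_or_eq_top (LieIdeal.map p ρ.ker) with h1 | h1
  · exfalso
    have hk : ∀ y, ρ y = 0 → p y = 0 := by
      intro y hy
      have h2 : p y ∈ LieIdeal.map p ρ.ker := LieIdeal.mem_map (LieHom.mem_ker.2 hy)
      rw [h1] at h2
      exact (LieSubmodule.mem_bot _).1 h2
    obtain ⟨x, P, hlt | ⟨hg, hρ, hlt⟩⟩ := hd
    · exact absurd (rank_le p ρ hp hk x P) (not_le.2 hlt)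
    · have hk' : ∀ y, p y = 0 → ρ y = 0 := by
        -- the ideal `ρ (ker p)` is a proper ideal
        rcases hg.eq_bot_or_eq_top (LieIdeal.map ρ p.ker) with h2 | h2
        · intro y hy
          have h3 : ρ y ∈ LieIdeal.map ρ p.ker := LieIdeal.mem_map (LieHom.mem_ker.2 hy)
          rw [h2] at h3
          exact (LieSubmodule.mem_bot _).1 h3
        · exfalso
          apply hS.non_abelian
          have h3 : ∀ y, p y = 0 := by
            intro y
            have h4 : ρ y ∈ LieIdeal.map ρ p.ker := by rw [h2]; exact LieSubmodule.mem_top _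
            obtain ⟨⟨z, hz⟩, hz'⟩ := LieIdeal.mem_map_of_surjective hρ h4
            have h5 : p (y - z) = 0 := hk _ (by rw [map_sub, ← hz', sub_self])
            rw [map_sub, LieHom.mem_ker.1 hz, sub_zero] at h5
            exact h5
          refine ⟨fun a b => ?_⟩
          obtain ⟨y, rfl⟩ := hp a
          rw [h3 y, zero_lie]
      exact absurd (rank_le ρ p hρ hk' x P) (not_le.2 hlt)
  · exact h1

variable {ι κ : Type*} {S : ι → Type*} [∀ i, LieRing (S i)] [∀ i, LieAlgebra k (S i)]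
  [∀ i, LieAlgebra.IsSimple k (S i)] {g : κ → Type*} [∀ j, LieRing (g j)]
  [∀ j, LieAlgebra k (g j)] [∀ j, FiniteDimensional k (g j)]

/-- The common kernel of finitely many `ρ j` maps onto the simple Lie algebra. -/
theorem map_inf {S : Type*} [LieRing S] [LieAlgebra k S] [hS : LieAlgebra.IsSimple k S]
    [FiniteDimensional k S] (p : h →ₗ⁅k⁆ S) (hp : Function.Surjective p) (ρ : ∀ j, h →ₗ⁅k⁆ g j)
    (hd : ∀ j, Differ p (ρ j)) (s : Finset κ) :
    LieIdeal.map p (s.inf fun j => (ρ j).ker) = ⊤ := by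
  classical
  induction s using Finset.induction_on with
  | empty =>
    rw [Finset.inf_empty]
    refine eq_top_iff.2 fun y _ => ?_
    obtain ⟨x, rfl⟩ := hp y
    exact LieIdeal.mem_map (LieSubmodule.mem_top x)
  | insert j s hj ih =>
    rw [Finset.inf_insert]
    refine eq_top_iff.2 ?_
    rw [← brk_top (k := k) S]
    calc ⁅(⊤ : LieIdeal k S), (⊤ : LieIdeal k S)⁆ =
        ⁅LieIdeal.map p (ρ j).ker, LieIdeal.map p (s.inf fun j => (ρ j).ker)⁆ := by
          rw [ih, map_ker p (ρ j) hp (hd j)]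
      _ = LieIdeal.map p ⁅(ρ j).ker, s.inf fun j => (ρ j).ker⁆ :=
          (LieIdeal.map_bracket_eq p hp).symm
      _ ≤ _ := LieIdeal.map_mono (LieSubmodule.lie_le_inf _ _)

/-- An ideal which maps onto all simple factors maps onto their product. -/
theorem onto_prod [Fintype ι] [DecidableEq ι] (p : ∀ i, h →ₗ⁅k⁆ S i)
    (hp : ∀ s : ∀ i, S i, ∃ x, ∀ i, p i x = s i) (K : LieIdeal k h)
    (hK : ∀ i, LieIdeal.map (p i) K = ⊤) (s : ∀ i, S i) : ∃ x ∈ K, ∀ i, p i x = s i := by
  have hpi : ∀ i, Function.Surjective (p i) := by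
    intro i a
    obtain ⟨x, hx⟩ := hp (Pi.single i a)
    exact ⟨x, by rw [hx i, Pi.single_eq_same]⟩
  -- one factor
  have h1 : ∀ (i : ι) (a : S i), ∃ x ∈ K, ∀ j, p j x = (Pi.single i a : ∀ i, S i) j := by
    intro i
    let J : Submodule k (S i) :=
      { carrier := {a | ∃ x ∈ K, ∀ j, p j x = (Pi.single i a : ∀ i, S i) j}
        zero_mem' := ⟨0, K.zero_mem, fun j => by rw [map_zero, Pi.single_zero]; rfl⟩
        add_mem' := by
          rintro a b ⟨x, hx, hx'⟩ ⟨y, hy, hy'⟩
          refine ⟨x + y, K.add_mem hx hy, fun j => ?_⟩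
          rw [map_add, hx' j, hy' j, Pi.single_add]
          rfl
        smul_mem' := by
          rintro c a ⟨x, hx, hx'⟩
          refine ⟨c • x, K.smul_mem c hx, fun j => ?_⟩
          rw [map_smul, hx' j, Pi.single_smul]
          rfl }
    have hJ : ∀ a b : S i, ⁅a, b⁆ ∈ J := by
      intro a b
      have h2 : a ∈ LieIdeal.map (p i) K := by rw [hK i]; exact LieSubmodule.mem_top a
      obtain ⟨⟨x, hx⟩, hx'⟩ := LieIdeal.mem_map_of_surjective (hpi i) h2
      obtain ⟨y, hy⟩ := hp (Pi.single i b)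
      refine ⟨⁅x, y⁆, lie_mem_left k h K x y hx, fun j => ?_⟩
      rw [LieHom.map_lie, hy j]
      by_cases hj : j = i
      · subst hj
        rw [Pi.single_eq_same, Pi.single_eq_same]
        congr 1
      · rw [Pi.single_eq_of_ne hj, Pi.single_eq_of_ne hj, lie_zero]
    intro a
    have h3 : a ∈ (⁅(⊤ : LieIdeal k (S i)), (⊤ : LieIdeal k (S i))⁆ : LieIdeal k (S i)) := by
      rw [brk_top (k := k) (S i)]
      exact LieSubmodule.mem_top a
    rw [← LieSubmodule.mem_toSubmodule, LieSubmodule.lieIdeal_oper_eq_linear_span] at h3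
    have h4 : a ∈ J := by
      refine Submodule.span_le.2 ?_ h3
      rintro _ ⟨x, y, rfl⟩
      exact hJ _ _
    exact h4
  choose f hf hf' using h1
  refine ⟨∑ i, f i (s i), Submodule.sum_mem (K : Submodule k h) fun i _ => hf i (s i),
    fun j => ?_⟩
  rw [map_sum, Finset.sum_congr rfl fun i _ => hf' i (s i) j, Finset.sum_eq_single j]
  · rw [Pi.single_eq_same]
  · intro i _ hi
    rw [Pi.single_eq_of_ne hi.symm]
  · intro h2
    exact absurd (Finset.mem_univ j) h2

variable {p : ∀ i, h →ₗ⁅k⁆ S i} {ρ : ∀ j, h →ₗ⁅k⁆ g j}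

/-- **The common kernel of the `ρ j` maps onto the product of the simple factors.** -/
theorem split [FiniteDimensional k h] [Finite ι] [Finite κ]
    (honto : ∀ s : ∀ i, S i, ∃ x, ∀ i, p i x = s i)
    (hd : ∀ i j, Differ (p i) (ρ j)) (s : ∀ i, S i) :
    ∃ x, (∀ j, ρ j x = 0) ∧ ∀ i, p i x = s i := by
  classical
  have := Fintype.ofFinite ι
  have := Fintype.ofFinite κ
  have hpi : ∀ i, Function.Surjective (p i) := by
    intro i a
    obtain ⟨x, hx⟩ := honto (Pi.single i a)
    exact ⟨x, by rw [hx i, Pi.single_eq_same]⟩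
  have hfd : ∀ i, FiniteDimensional k (S i) := fun i =>
    Module.Finite.of_surjective (p i : h →ₗ[k] S i) (hpi i)
  obtain ⟨x, hx, hx'⟩ := onto_prod p honto (Finset.univ.inf fun j => (ρ j).ker)
    (fun i => map_inf (p i) (hpi i) ρ (hd i) Finset.univ) s
  refine ⟨x, fun j => ?_, hx'⟩
  have h1 : Finset.univ.inf (fun j => (ρ j).ker) ≤ (ρ j).ker :=
    Finset.inf_le (Finset.mem_univ j)
  exact LieHom.mem_ker.1 (h1 hx)

omit [∀ i, LieAlgebra.IsSimple k (S i)] [∀ j, FiniteDimensional k (g j)] in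
/-- **The kernel of `χ` is the sum of the ideal `a` and of the common kernel of the `ρ j`.** -/
theorem sum_eq (a : Submodule k h) (χ : h →ₗ[k] k)
    (hsplit : ∀ s : ∀ i, S i, ∃ x, (∀ j, ρ j x = 0) ∧ ∀ i, p i x = s i)
    (hcen : ∀ x, (∀ i, p i x = 0) → ∀ y, ⁅x, y⁆ ∈ a)
    (hab : ∀ l : h →ₗ[k] k, (∀ x y : h, l ⁅x, y⁆ = 0) → (∀ x ∈ a, l x = 0) →
      (∀ x, (∀ j, ρ j x = 0) → l x = 0) → ∃ c : k, l = c • χ)
    (y : h) (hy : χ y = 0) : ∃ x ∈ a, ∀ j, ρ j (y - x) = 0 := by
  classical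
  let b : Submodule k h :=
    { carrier := {x | ∀ j, ρ j x = 0}
      zero_mem' := fun j => map_zero _
      add_mem' := fun {x z} hx hz j => by rw [map_add, hx j, hz j, add_zero]
      smul_mem' := fun c x hx j => by rw [map_smul, hx j, smul_zero] }
  have hb : ∀ x, x ∈ b ↔ ∀ j, ρ j x = 0 := fun x => Iff.rfl
  have hmem : y ∈ a ⊔ b := by
    by_contra hcon
    obtain ⟨l, hl, hlv⟩ := Submodule.exists_le_ker_of_notMem hcon
    have h1 : ∀ x z : h, l ⁅x, z⁆ = 0 := by
      intro x z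
      obtain ⟨u, hu, hu'⟩ := hsplit fun i => p i x
      have h2 : ⁅x, z⁆ = ⁅x - u, z⁆ + ⁅u, z⁆ := by rw [sub_lie, sub_add_cancel]
      have h3 : ⁅u, z⁆ ∈ b := by
        rw [hb]
        intro j
        rw [LieHom.map_lie, hu j, zero_lie]
      have h4 : ⁅x - u, z⁆ ∈ a := hcen _ (fun i => by rw [map_sub, hu' i, sub_self]) z
      rw [h2]
      exact hlv (Submodule.add_mem_sup h4 h3)
    obtain ⟨c, hc⟩ := hab l h1 (fun x hx => hlv (Submodule.mem_sup_left hx))
      (fun x hx => hlv (Submodule.mem_sup_right ((hb x).2 hx)))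
    apply hl
    rw [hc, LinearMap.smul_apply, hy, smul_zero]
  obtain ⟨x, hx, z, hz, hxz⟩ := Submodule.mem_sup.1 hmem
  refine ⟨x, hx, ?_⟩
  rw [← hxz, add_sub_cancel_left]
  exact hz

end ideal

end Pool.Agent.TH164.Gou
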