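import Pool.Agent.TH164.Gou.Ideal

/-!
# Tate classes on products
-/

set_option autoImplicit false

open Module Polynomial

namespace Pool.Agent.TH164.Gou

/-- A finite-dimensional Lie algebra through which `h` acts: a homomorphism from `h` to `g`. -/
structure Quo (k h : Type) [Field k] [LieRing h] [LieAlgebra k h] where
  /-- the Lie algebra -/
  g : Type
  [lr : LieRing g]
  [la : LieAlgebra k g]
  [fd : FiniteDimensional k g]
  /-- the homomorphism -/
  hom : h →ₗ⁅k⁆ g

attribute [instance] Quo.lr Quo.la Quo.fd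

/-- A finite-dimensional representation of `h`. -/
structure Rp (k h : Type) [Field k] [LieRing h] [LieAlgebra k h] where
  /-- the vector space -/
  V : Type
  [ac : AddCommGroup V]
  [mo : Module k V]
  [fd : Module.Finite k V]
  [lr : LieRingModule h V]
  [lm : LieModule k h V]

attribute [instance] Rp.ac Rp.mo Rp.fd Rp.lr Rp.lm

section basic

variable {k : Type} [Field k] {h : Type} [LieRing h] [LieAlgebra k h]

/-- The element `x` of `h` acts as zero on `g`. -/
def Quo.Kill (q : Quo k h) (x : h) : Prop := q.hom x = 0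

/-- The adjoint action of `x` on `g`. -/
noncomputable def Quo.ad (q : Quo k h) (x : h) : Module.End k q.g := LieAlgebra.ad k q.g (q.hom x)

/-- The endomorphism `P (ad x)` of `g`. -/
noncomputable def Quo.pad (q : Quo k h) (x : h) (P : k[X]) : Module.End k q.g :=
  Polynomial.aeval (q.ad x) P

/-- The rank of `P (ad x)` on `g`. -/
noncomputable def Quo.rk (q : Quo k h) (x : h) (P : k[X]) : ℕ :=
  finrank k (LinearMap.range (q.pad x P))

/-- The actions of `h` on a simple Lie algebra `s` and on a Lie algebra `q` are told apart by an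
element `x` of `h` and a polynomial `P`: the rank of `P (ad x)` on `s` is larger than its rank on
`q`; or `q` is simple, `h` maps onto `q`, and the rank on `q` is larger. -/
def Quo.Differ (s q : Quo k h) : Prop :=
  ∃ (x : h) (P : k[X]), q.rk x P < s.rk x P ∨
    (LieAlgebra.IsSimple k q.g ∧ Function.Surjective q.hom ∧ s.rk x P < q.rk x P)

/-- The element `x` acts as zero on the representation. -/
def Rp.Kill (M : Rp k h) (x : h) : Prop := ∀ m : M.V, ⁅x, m⁆ = 0

/-- The vector `m` is killed by the Lie algebra. -/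
def Rp.Inv {M : Rp k h} (m : M.V) : Prop := ∀ x : h, ⁅x, m⁆ = 0

/-- Linear maps between representations (not necessarily equivariant). -/
def Rp.Hom (M N : Rp k h) : Type := M.V →ₗ[k] N.V

noncomputable instance (M N : Rp k h) : AddCommGroup (M.Hom N) :=
  inferInstanceAs (AddCommGroup (M.V →ₗ[k] N.V))

noncomputable instance (M N : Rp k h) : Module k (M.Hom N) :=
  inferInstanceAs (Module k (M.V →ₗ[k] N.V))

/-- The value of a linear map. -/
def Rp.Hom.ap {M N : Rp k h} (f : M.Hom N) (m : M.V) : N.V :=
  DFunLike.coe (F := M.V →ₗ[k] N.V) f m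

/-- The linear map commutes with the Lie algebra. -/
def Rp.Hom.Eqv {M N : Rp k h} (f : M.Hom N) : Prop := ∀ (x : h) (m : M.V), f.ap ⁅x, m⁆ = ⁅x, f.ap m⁆

/-- Bilinear forms. -/
def Rp.Form (M : Rp k h) : Type := M.V →ₗ[k] M.V →ₗ[k] k

/-- The linear form given by a vector. -/
def Rp.Form.lin {M : Rp k h} (B : M.Form) (v : M.V) : M.V →ₗ[k] k :=
  DFunLike.coe (F := M.V →ₗ[k] M.V →ₗ[k] k) B v

/-- The value of a bilinear form. -/
def Rp.Form.val {M : Rp k h} (B : M.Form) (v w : M.V) : k :=
  B.lin v w

/-- The bilinear form is symmetric, nondegenerate and invariant. -/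
structure Rp.Form.Poincare {M : Rp k h} (B : M.Form) : Prop where
  symm : ∀ v w, B.val v w = B.val w v
  nondeg : ∀ v, (∀ w, B.val v w = 0) → v = 0
  inv : ∀ (x : h) v w, B.val ⁅x, v⁆ w + B.val v ⁅x, w⁆ = 0

end basic

/-- A smooth projective variety: its étale cohomology as a representation of the Lie algebra `h`,
where `E` is the sum of the cohomology groups `H^a(a / 2)` of even degree `a` and `O` is the sum of
the cohomology groups `H^a((a - 1) / 2)` of odd degree `a`, with Poincaré duality on `E`, the
classes of algebraic cycles, the fundamental class and the class of a point. -/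
structure Vty (k h : Type) [Field k] [LieRing h] [LieAlgebra k h] where
  /-- even cohomology -/
  E : Rp k h
  /-- odd cohomology -/
  O : Rp k h
  /-- the Poincaré pairing -/
  pair : E.Form
  dual : pair.Poincare
  /-- the linear combinations of the classes of algebraic cycles -/
  A : Submodule k E.V
  /-- the fundamental class -/
  one : E.V
  /-- the class of a point -/
  pt : E.V
  one_pt : pair.val one pt = 1
  inv_one : Rp.Inv one

section basic2

variable {k : Type} [Field k] {h : Type} [LieRing h] [LieAlgebra k h]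

/-- The element `x` of the Lie algebra acts as zero on the cohomology of `X`, and as zero on the
Tate module. -/
def Vty.Kill (X : Vty k h) (χ : h →ₗ[k] k) (x : h) : Prop := X.E.Kill x ∧ X.O.Kill x ∧ χ x = 0

/-- The kernel of `χ` is as large as the whole Lie algebra on even cohomology twisted to weight
zero, and it kills no class of odd degree. -/
structure Vty.Pure (X : Vty k h) (χ : h →ₗ[k] k) : Prop where
  /-- even cohomology groups -/
  even : ∀ m : X.E.V, (∀ x, χ x = 0 → ⁅x, m⁆ = 0) → Rp.Inv m
  /-- odd cohomology groups -/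
  odd : ∀ m : X.O.V, (∀ x, χ x = 0 → ⁅x, m⁆ = 0) → m = 0

/-- All the Lie algebras are acted upon as zero by `x`. -/
def KillAll {κ : Type} (ρ : κ → Quo k h) (x : h) : Prop := ∀ j, (ρ j).Kill x

/-- A character of `h` which factors through the Lie algebra of `X` (and of the Tate module) and
through the `ρ j` is a multiple of `χ`. -/
def CommonChar {κ : Type} (ρ : κ → Quo k h) (X : Vty k h) (χ : h →ₗ[k] k) : Prop :=
  ∀ l : h →ₗ[k] k, (∀ x y : h, l ⁅x, y⁆ = 0) → (∀ x, X.Kill χ x → l x = 0) →
    (∀ x, KillAll ρ x → l x = 0) → ∃ c : k, l = c • χ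

/-- The hypotheses on the Lie algebra `h` of the Galois group acting on the cohomology of two
varieties `X` and `Z`; `χ` is the action on the Tate module. -/
structure Compared {ι κ : Type} (χ : h →ₗ[k] k) (p : ι → Quo k h) (ρ : κ → Quo k h)
    (X Z : Vty k h) : Prop where
  simple : ∀ i, LieAlgebra.IsSimple k (p i).g
  /-- `h` maps onto the product of the simple Lie algebras -/
  onto : ∀ s : ∀ i, (p i).g, ∃ x, ∀ i, (p i).hom x = s i
  /-- the kernel acts on the cohomology of `X` through the centre -/
  central : ∀ x, KillAll p x → ∀ y : h, X.Kill χ ⁅x, y⁆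
  /-- the cohomology of `Z` is generated by the pieces on which `h` acts through the Lie algebras
  `ρ j`, and by the Tate module -/
  gen : ∀ x, KillAll ρ x → Z.Kill χ x
  /-- the simple factors of `X` are told apart from the pieces of `Z` -/
  differ : ∀ i j, (p i).Differ (ρ j)
  /-- characters -/
  char : CommonChar ρ X χ
  /-- purity -/
  pure : X.Pure χ

/-- The cohomology classes of even degree on the product `X × Z`, twisted to weight zero: by the
Künneth formula and by Poincaré duality these are the pairs of linear maps from the even, and from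
the odd, cohomology of `Z` to the one of `X`. -/
def Cls (X Z : Vty k h) : Type := Z.E.Hom X.E × Z.O.Hom X.O

noncomputable instance (X Z : Vty k h) : AddCommGroup (Cls X Z) :=
  inferInstanceAs (AddCommGroup (Z.E.Hom X.E × Z.O.Hom X.O))

noncomputable instance (X Z : Vty k h) : Module k (Cls X Z) :=
  inferInstanceAs (Module k (Z.E.Hom X.E × Z.O.Hom X.O))

/-- The even part. -/
def Cls.even {X Z : Vty k h} (f : Cls X Z) : Z.E.Hom X.E := f.1

/-- The odd part. -/
def Cls.odd {X Z : Vty k h} (f : Cls X Z) : Z.O.Hom X.O := f.2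

/-- The linear map which sends `w` to the multiple of `m` by the pairing of `v` and `w`. -/
def Vty.outer {X Z : Vty k h} (m : X.E.V) (v : Z.E.V) : Z.E.Hom X.E :=
  (Z.pair.lin v).smulRight m

/-- The product of a class `m` on `X` and of a class `v` on `Z`. -/
noncomputable def ext {X Z : Vty k h} (m : X.E.V) (v : Z.E.V) : Cls X Z := (Vty.outer m v, 0)

/-- The linear combinations of products of Tate classes on `X` and on `Z`. -/
noncomputable def prods (X Z : Vty k h) : Submodule k (Cls X Z) :=
  Submodule.span k {f | ∃ (m : X.E.V) (v : Z.E.V), Rp.Inv m ∧ Rp.Inv v ∧ f = ext m v}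

/-- The class on the product is a Tate class: it is killed by the Lie algebra. -/
def IsTate {X Z : Vty k h} (f : Cls X Z) : Prop := f.even.Eqv ∧ f.odd.Eqv

/-- The Tate conjecture: all Tate classes are combinations of classes of algebraic cycles. -/
def Vty.Tate (X : Vty k h) : Prop := ∀ m : X.E.V, Rp.Inv m → m ∈ X.A

/-- The restriction of a class on `X × Z` to `X × point`. -/
def Cls.onX {X Z : Vty k h} (f : Cls X Z) : X.E.V := f.even.ap Z.pt

/-- The class `b` is the restriction of a class on `X × Z` to `point × Z`. -/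
def Cls.IsOnZ {X Z : Vty k h} (f : Cls X Z) (b : Z.E.V) : Prop :=
  ∀ w, Z.pair.val b w = X.pair.val X.pt (f.even.ap w)

/-- The linear combinations of classes of algebraic cycles on a product. -/
structure PrdCyc (X Z : Vty k h) where
  /-- the linear combinations of classes of algebraic cycles on the product -/
  A : Submodule k (Cls X Z)
  prod : ∀ a ∈ X.A, ∀ b ∈ Z.A, ext a b ∈ A
  resX : ∀ f ∈ A, f.onX ∈ X.A
  resZ : ∀ f ∈ A, ∀ b, f.IsOnZ b → b ∈ Z.A

/-- The Tate conjecture for the product. -/
def PrdCyc.Tate {X Z : Vty k h} (C : PrdCyc X Z) : Prop := ∀ f : Cls X Z, IsTate f → f ∈ C.A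

end basic2

section proofs

variable {k : Type} [Field k] {h : Type} [LieRing h] [LieAlgebra k h]
variable {ι κ : Type} {p : ι → Quo k h} {ρ : κ → Quo k h} {χ : h →ₗ[k] k} {X Z : Vty k h}

/-- the kernel of `χ` -/
theorem Compared.sum [FiniteDimensional k h] [Finite ι] [Finite κ]
    (hC : Compared χ p ρ X Z) (y : h) (hy : χ y = 0) : ∃ x, X.Kill χ x ∧ KillAll ρ (y - x) := by
  have hs := hC.simple
  let a : Submodule k h :=
    { carrier := {x | X.Kill χ x}
      zero_mem' := ⟨fun m => zero_lie m, fun m => zero_lie m, map_zero _⟩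
      add_mem' := by
        rintro x y ⟨h1, h2, h3⟩ ⟨h4, h5, h6⟩
        refine ⟨fun m => ?_, fun m => ?_, ?_⟩
        · rw [add_lie, h1, h4, add_zero]
        · rw [add_lie, h2, h5, add_zero]
        · rw [map_add, h3, h6, add_zero]
      smul_mem' := by
        rintro c x ⟨h1, h2, h3⟩
        refine ⟨fun m => ?_, fun m => ?_, ?_⟩
        · rw [smul_lie, h1, smul_zero]
        · rw [smul_lie, h2, smul_zero]
        · rw [map_smul, h3, smul_zero] }
  obtain ⟨x, hx, hx'⟩ := sum_eq (p := fun i => (p i).hom) (ρ := fun j => (ρ j).hom) a χ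
    (split hC.onto hC.differ)
    (fun x hx y => hC.central x hx y)
    (fun l h1 h2 h3 => hC.char l h1 h2 h3) y hy
  exact ⟨x, hx, hx'⟩

/-- Equivariant maps from the cohomology of `Z` to the one of `X` take values in the invariants. -/
theorem Compared.tate [FiniteDimensional k h] [Finite ι] [Finite κ] (hC : Compared χ p ρ X Z)
    (f : Cls X Z) (hf : IsTate f) : (∀ v, Rp.Inv (f.even.ap v)) ∧ ∀ v, f.odd.ap v = 0 := by
  constructor
  · intro v
    refine hC.pure.even _ fun x hx => ?_
    obtain ⟨y, hy, hy'⟩ := hC.sum x hx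
    have h1 : ⁅x - y, f.even.ap v⁆ = 0 := by
      rw [← hf.1, (hC.gen _ hy').1]
      exact map_zero (id f.1 : Z.E.V →ₗ[k] X.E.V)
    rwa [sub_lie, hy.1, sub_zero] at h1
  · refine fun v => hC.pure.odd _ fun x hx => ?_
    obtain ⟨y, hy, hy'⟩ := hC.sum x hx
    have h1 : ⁅x - y, f.odd.ap v⁆ = 0 := by
      rw [← hf.2, (hC.gen _ hy').2.1]
      exact map_zero (id f.2 : Z.O.V →ₗ[k] X.O.V)
    rwa [sub_lie, hy.2.1, sub_zero] at h1

/-- Functionals are given by the pairing. -/
theorem Vty.exists_dual (Z : Vty k h) (l : Z.E.V →ₗ[k] k) : ∃ v, ∀ w, Z.pair.val v w = l w := by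
  let B : Z.E.V →ₗ[k] Z.E.V →ₗ[k] k := Z.pair
  have hinj : Function.Injective B := by
    rw [injective_iff_map_eq_zero]
    intro v hv
    refine Z.dual.nondeg v fun w => ?_
    change B v w = 0
    rw [hv]
    rfl
  have hsurj : Function.Surjective B :=
    (LinearMap.injective_iff_surjective_of_finrank_eq_finrank
      (Subspace.dual_finrank_eq (K := k) (V := Z.E.V)).symm).1 hinj
  obtain ⟨v, hv⟩ := hsurj l
  refine ⟨v, fun w => ?_⟩
  change B v w = l w
  rw [hv]

theorem isTate_ext {m : X.E.V} {v : Z.E.V} (hm : Rp.Inv m) (hv : Rp.Inv v) :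
    IsTate (ext m v) := by
  constructor
  · intro x w
    change Z.pair.val v ⁅x, w⁆ • m = ⁅x, Z.pair.val v w • m⁆
    have h1 := Z.dual.inv x v w
    have h2 : Z.pair.val (0 : Z.E.V) w = 0 := by
      change (id Z.pair : Z.E.V →ₗ[k] Z.E.V →ₗ[k] k) 0 w = 0
      rw [map_zero, LinearMap.zero_apply]
    rw [hv x, h2, zero_add] at h1
    rw [h1, zero_smul, lie_smul, hm x, smul_zero]
  · intro x w
    change (0 : X.O.V) = ⁅x, (0 : X.O.V)⁆
    rw [lie_zero]

/-- **Tate classes on the product** are combinations of products of Tate classes. -/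
theorem tate_mem [FiniteDimensional k h] [Finite ι] [Finite κ] (hC : Compared χ p ρ X Z)
    (f : Cls X Z) (hf : IsTate f) : f ∈ prods X Z := by
  obtain ⟨h1, h2⟩ := hC.tate f hf
  let f1 : Z.E.V →ₗ[k] X.E.V := f.1
  have hf1 : ∀ (x : h) (w : Z.E.V), f1 ⁅x, w⁆ = ⁅x, f1 w⁆ := hf.1
  -- the values of `f`
  let R := LinearMap.range f1
  let b := Module.finBasis k R
  have hb : ∀ i, Rp.Inv (M := X.E) (b i : X.E.V) := by
    intro i
    obtain ⟨w, hw⟩ := (b i).2
    rw [← hw]
    exact h1 w
  choose v hv using fun i => Z.exists_dual (b.coord i ∘ₗ f1.rangeRestrict)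
  have hvi : ∀ i, Rp.Inv (v i) := by
    intro i x
    apply Z.dual.nondeg
    intro w
    have h3 := Z.dual.inv x (v i) w
    have h4 : Z.pair.val (v i) ⁅x, w⁆ = 0 := by
      rw [hv i, LinearMap.comp_apply]
      have h5 : f1.rangeRestrict ⁅x, w⁆ = 0 := by
        apply Subtype.ext
        change f1 ⁅x, w⁆ = 0
        rw [hf1 x w]
        exact h1 w x
      rw [h5, map_zero]
    rwa [h4, add_zero] at h3
  have h3 : f = ∑ i, ext (b i : X.E.V) (v i) := by
    have h4 : (f : (Z.E.V →ₗ[k] X.E.V) × (Z.O.V →ₗ[k] X.O.V)) =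
        ∑ i, ((((Z.pair.lin (v i)).smulRight (b i : X.E.V)), 0) :
          (Z.E.V →ₗ[k] X.E.V) × (Z.O.V →ₗ[k] X.O.V)) := by
      refine Prod.ext ?_ ?_
      · rw [Prod.fst_sum]
        refine LinearMap.ext fun w => ?_
        rw [LinearMap.sum_apply]
        have h4 := b.sum_repr (f1.rangeRestrict w)
        have h5 := congrArg (fun r : R => (r : X.E.V)) h4
        simp only [AddSubmonoidClass.coe_finsetSum, Submodule.coe_smul] at h5
        have h6 : f1 w = ((f1.rangeRestrict w : R) : X.E.V) := rfl
        change f1 w = _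
        rw [h6, ← h5]
        refine Finset.sum_congr rfl fun i _ => ?_
        change _ = Z.pair.val (v i) w • (b i : X.E.V)
        rw [hv i w]
        rfl
      · rw [Prod.snd_sum]
        have h5 : (Prod.snd (f : (Z.E.V →ₗ[k] X.E.V) × (Z.O.V →ₗ[k] X.O.V))) = 0 :=
          LinearMap.ext fun w => h2 w
        rw [h5]
        symm
        refine Finset.sum_eq_zero fun i _ => rfl
    exact h4
  rw [h3]
  exact Submodule.sum_mem _ fun i _ => Submodule.subset_span ⟨_, _, hb i, hvi i, rfl⟩

/-- **The Tate conjecture for a product.** -/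
theorem tate_product [FiniteDimensional k h] [Finite ι] [Finite κ] (hC : Compared χ p ρ X Z)
    (C : PrdCyc X Z) : C.Tate ↔ X.Tate ∧ Z.Tate := by
  constructor
  · intro hz
    refine ⟨fun m hm => ?_, fun v hv => ?_⟩
    · have h2 := C.resX _ (hz _ (isTate_ext hm Z.inv_one))
      change Z.pair.val Z.one Z.pt • m ∈ X.A at h2
      rwa [Z.one_pt, one_smul] at h2
    · refine C.resZ _ (hz _ (isTate_ext X.inv_one hv)) v fun w => ?_
      change Z.pair.val v w = X.pair.val X.pt (Z.pair.val v w • X.one)
      rw [X.dual.symm]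
      change _ = (id X.pair : X.E.V →ₗ[k] X.E.V →ₗ[k] k) (Z.pair.val v w • X.one) X.pt
      rw [map_smul, LinearMap.smul_apply]
      change _ = Z.pair.val v w • X.pair.val X.one X.pt
      rw [X.one_pt, smul_eq_mul, mul_one]
  · rintro ⟨hTX, hTZ⟩ f hf
    refine Submodule.span_le.2 ?_ (tate_mem hC f hf)
    rintro _ ⟨m, v, hm, hv, rfl⟩
    exact C.prod m (hTX m hm) v (hTZ v hv)

end proofs

end Pool.Agent.TH164.Gou
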