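import Pool.Agent.TH164.Gou.Main

/-!
# The motivated Mumford-Tate conjecture for direct sums
-/

set_option autoImplicit false

open Module

namespace Pool.Agent.TH164.Gou

section defs

variable {k : Type} [Field k] {G : Type} [LieRing G] [LieAlgebra k G]

/-- The Lie subalgebra `A` is the whole Lie algebra `G`. -/
def Full (A : LieSubalgebra k G) : Prop := ∀ y : G, y ∈ A

/-- The Lie subalgebra `A` and the Lie algebra `G` have the same image in the endomorphisms of the
representation `V`. -/
def FullOn (A : LieSubalgebra k G) (V : Rp k G) : Prop := ∀ y : G, ∃ x ∈ A, V.Kill (y - x)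

/-- A character of the Lie algebra `G` which is trivial on `A` is trivial. -/
def FullOnChars (A : LieSubalgebra k G) : Prop :=
  ∀ l : G →ₗ[k] k, (∀ x y : G, l ⁅x, y⁆ = 0) → (∀ x ∈ A, l x = 0) → l = 0

/-- The Lie algebra `G` acts faithfully on the sum of the `V j`. -/
def Faithful {J : Type} (V : J → Rp k G) : Prop := ∀ x : G, (∀ j, (V j).Kill x) → x = 0

/-- The element `x` acts as zero on all `V i` with `i ≠ j`. -/
def KillOthers {J : Type} (V : J → Rp k G) (j : J) (x : G) : Prop := ∀ i, i ≠ j → (V i).Kill x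

/-- The action of the Lie algebra `A` on `V j` is told apart from the action on the other `V i`: on
`V j` it is, modulo its centre, a product of simple Lie algebras, the actions `p a`; on the other
`V i` it is given by the actions `ρ b`; and all `p a` are told apart from all `ρ b`. -/
structure ToldApart {J ι κ : Type} (A : LieSubalgebra k G) (V : J → Rp k G) (j : J)
    (p : ι → Quo k A) (ρ : κ → Quo k A) : Prop where
  simple : ∀ a, LieAlgebra.IsSimple k (p a).g
  /-- `A` maps onto the product of the simple Lie algebras -/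
  onto : ∀ s : ∀ a, (p a).g, ∃ x, ∀ a, (p a).hom x = s a
  /-- the kernel acts on `V j` through the centre -/
  central : ∀ x : A, KillAll p x → ∀ y : A, (V j).Kill ((⁅x, y⁆ : A) : G)
  /-- an element which acts as zero on the `ρ b` acts as zero on the other `V i` -/
  gen : ∀ x : A, KillAll ρ x → KillOthers V j (x : G)
  /-- the simple factors are told apart from the others -/
  differ : ∀ a b, (p a).Differ (ρ b)

/-- There are finitely many actions `p a` and `ρ b` with these properties. -/
def IsToldApart {J : Type} (A : LieSubalgebra k G) (V : J → Rp k G) (j : J) : Prop :=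
  ∃ (n m : ℕ) (p : Fin n → Quo k A) (ρ : Fin m → Quo k A), ToldApart A V j p ρ

end defs

section proofs

variable {k : Type} [Field k] {G : Type} [LieRing G] [LieAlgebra k G]
variable {J : Type} {A : LieSubalgebra k G} {V : J → Rp k G}

theorem Rp.Kill.add {M : Rp k G} {x y : G} (hx : M.Kill x) (hy : M.Kill y) : M.Kill (x + y) := by
  intro m
  rw [add_lie, hx, hy, add_zero]

theorem Rp.Kill.neg {M : Rp k G} {x : G} (hx : M.Kill x) : M.Kill (-x) := by
  intro m
  rw [neg_lie, hx, neg_zero]

theorem Rp.Kill.sub {M : Rp k G} {x y : G} (hx : M.Kill x) (hy : M.Kill y) : M.Kill (x - y) := by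
  intro m
  rw [sub_lie, hx, hy, sub_zero]

theorem Rp.kill_zero (M : Rp k G) : M.Kill (0 : G) := fun m => zero_lie m

theorem Rp.Kill.left {M : Rp k G} {x : G} (hx : M.Kill x) (y : G) : M.Kill ⁅x, y⁆ := by
  intro m
  rw [lie_lie, hx, hx, lie_zero, sub_zero]

theorem Rp.Kill.right {M : Rp k G} {x : G} (hx : M.Kill x) (y : G) : M.Kill ⁅y, x⁆ := by
  intro m
  rw [lie_lie, hx, hx, lie_zero, sub_zero]

theorem Rp.kill_sum {M : Rp k G} (s : Finset J) (f : J → G) (h : ∀ j ∈ s, M.Kill (f j)) :
    M.Kill (∑ j ∈ s, f j) := by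
  classical
  induction s using Finset.induction_on with
  | empty => exact M.kill_zero
  | insert a s ha ih =>
    rw [Finset.sum_insert ha]
    exact (h a (Finset.mem_insert_self a s)).add
      (ih fun j hj => h j (Finset.mem_insert_of_mem hj))

/-- brackets in `A`: the part which acts on `V j` only -/
theorem IsToldApart.brk [FiniteDimensional k A] {j : J} (hT : IsToldApart A V j)
    (x z : G) (hx : x ∈ A) (hz : z ∈ A) :
    ∃ t ∈ A, KillOthers V j t ∧ (V j).Kill (⁅x, z⁆ - t) := by
  obtain ⟨n, m, p, ρ, hT⟩ := hT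
  have hs := hT.simple
  obtain ⟨u, hu, hu'⟩ := split (p := fun i => (p i).hom) (ρ := fun j => (ρ j).hom) hT.onto
    hT.differ fun i => (p i).hom ⟨x, hx⟩
  have h1 : KillAll p (⟨x, hx⟩ - u) := by
    intro i
    change (p i).hom (⟨x, hx⟩ - u) = 0
    rw [map_sub, hu' i, sub_self]
  refine ⟨⁅(u : G), z⁆, A.lie_mem u.2 hz, fun i hi => (hT.gen u hu i hi).left z, ?_⟩
  rw [← sub_lie]
  exact hT.central _ h1 ⟨z, hz⟩

/-- the same for all `j`, if all but one are told apart -/
theorem brk_all [FiniteDimensional k A] [Finite J] (j₀ : J)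
    (hT : ∀ j, j ≠ j₀ → IsToldApart A V j) (j : J) (x z : G) (hx : x ∈ A) (hz : z ∈ A) :
    ∃ t ∈ A, KillOthers V j t ∧ (V j).Kill (⁅x, z⁆ - t) := by
  classical
  have := Fintype.ofFinite J
  by_cases hj : j = j₀
  · subst hj
    have h1 : ∀ i, ∃ t ∈ A, i ≠ j → (KillOthers V i t ∧ (V i).Kill (⁅x, z⁆ - t)) := by
      intro i
      by_cases hi : i = j
      · exact ⟨0, A.zero_mem, fun h => absurd hi h⟩
      · obtain ⟨t, ht, h⟩ := (hT i hi).brk x z hx hz
        exact ⟨t, ht, fun _ => h⟩
    choose t ht ht' using h1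
    refine ⟨⁅x, z⁆ - ∑ i ∈ Finset.univ.erase j, t i, ?_, ?_, ?_⟩
    · exact A.sub_mem (A.lie_mem hx hz) (A.toSubmodule.sum_mem fun i _ => ht i)
    · intro i hi
      have hmem : i ∈ Finset.univ.erase j := Finset.mem_erase.2 ⟨hi, Finset.mem_univ i⟩
      rw [← Finset.add_sum_erase _ _ hmem, ← sub_sub]
      refine (ht' i hi).2.sub (Rp.kill_sum _ _ fun l hl => ?_)
      have h2 := Finset.mem_erase.1 hl
      exact (ht' l (Finset.mem_erase.1 h2.2).1).1 i h2.1.symm
    · rw [sub_sub_cancel]
      refine Rp.kill_sum _ _ fun l hl => ?_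
      have h2 := (Finset.mem_erase.1 hl).1
      exact (ht' l h2).1 j h2.symm
  · exact (hT j hj).brk x z hx hz

/-- **All brackets lie in `A`.** -/
theorem brk_mem [FiniteDimensional k A] [Finite J] (j₀ : J)
    (hT : ∀ j, j ≠ j₀ → IsToldApart A V j) (hF : Faithful V) (hV : ∀ j, FullOn A (V j))
    (x z : G) : ⁅x, z⁆ ∈ A := by
  classical
  have := Fintype.ofFinite J
  choose x' hx' hx'' using fun j => hV j x
  choose z' hz' hz'' using fun j => hV j z
  choose t ht ht' using fun j => brk_all j₀ hT j (x' j) (z' j) (hx' j) (hz' j)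
  have h7 : ⁅x, z⁆ = ∑ j, t j := by
    rw [← sub_eq_zero]
    apply hF
    intro j
    have h8 : ⁅x, z⁆ - ∑ i, t i = ((⁅x - x' j, z⁆ + ⁅x' j, z - z' j⁆) + (⁅x' j, z' j⁆ - t j)) -
        ∑ i ∈ Finset.univ.erase j, t i := by
      rw [← Finset.add_sum_erase _ _ (Finset.mem_univ j), sub_lie, lie_sub]
      abel
    rw [h8]
    refine ((((hx'' j).left z).add ((hz'' j).right (x' j))).add (ht' j).2).sub
      (Rp.kill_sum _ _ fun l hl => ?_)
    exact (ht' l).1 j (Finset.mem_erase.1 hl).1.symm
  rw [h7]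
  exact A.toSubmodule.sum_mem fun i _ => ht i

/-- **The Mumford-Tate conjecture for direct sums.** -/
theorem full_iff [FiniteDimensional k A] [Finite J] (hF : Faithful V) (j₀ : J)
    (hT : ∀ j, j ≠ j₀ → IsToldApart A V j) :
    Full A ↔ (∀ j, FullOn A (V j)) ∧ FullOnChars A := by
  constructor
  · intro h
    refine ⟨fun j y => ⟨y, h y, ?_⟩, fun l _ hl => ?_⟩
    · rw [sub_self]
      exact (V j).kill_zero
    · exact LinearMap.ext fun y => hl y (h y)
  · rintro ⟨hV, hl⟩ y
    by_contra hcon
    obtain ⟨l, hl1, hl2⟩ := Submodule.exists_le_ker_of_notMem (p := A.toSubmodule) hcon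
    apply hl1
    rw [hl l (fun x z => hl2 (brk_mem j₀ hT hF hV x z)) fun x hx => hl2 hx]
    rfl

end proofs

end Pool.Agent.TH164.Gou
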